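import Mathlib

/-!
# The expanded clique with bounded matching number

Let `V₀` be a set of `C(l,2)` vertices. The `r`-graph of all `r`-sets with exactly one vertex in
`V₀` contains no expanded clique `H_{l+1}^r`: a set that meets every edge of `H_{l+1}^r` in exactly
one vertex has at least `C(l,2) + 1` vertices. It has matching number at most `C(l,2)`, and it has
more edges than the conjectured extremal `r`-graph.
-/

set_option autoImplicit false

open Finset

namespace Pool.Agent.Results.MP_f4e9fb_co.OneVertexStars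

/-- The `r`-uniform hypergraph `G` contains a copy of `H_{l+1}^r`: there are `l + 1` different core
vertices `v k` and, for every pair `p` of indices, a set `W p` that contains no core vertex, such that
`W p` together with the two core vertices of `p` is an edge of `G`, and the sets `W p` are pairwise
disjoint. (As `G` is `r`-uniform, `W p` has `r - 2` elements.) -/
def HasExpClique {n : ℕ} (l : ℕ) (G : Finset (Finset (Fin n))) : Prop :=
  ∃ (v : Fin (l + 1) → Fin n) (W : Finset (Fin (l + 1)) → Finset (Fin n)),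
    Function.Injective v ∧
    (∀ p, p.card = 2 → (∀ k, v k ∉ W p) ∧ p.image v ∪ W p ∈ G) ∧
    (∀ p q, p.card = 2 → q.card = 2 → p ≠ q → Disjoint (W p) (W q))

/-- Any family of pairwise disjoint edges of `G` has at most `s` members. -/
def MatchingLE {n : ℕ} (s : ℕ) (G : Finset (Finset (Fin n))) : Prop :=
  ∀ M ⊆ G, (∀ e ∈ M, ∀ f ∈ M, e ≠ f → Disjoint e f) → M.card ≤ s

/-- `t_k(m,q)`: the number of `k`-subsets of an `m`-set that meet every part of a balanced partition
into `q` parts (here: the residue classes modulo `q`) in at most one vertex. -/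
def genTuran (k m q : ℕ) : ℕ :=
  (((univ : Finset (Fin m)).powersetCard k).filter fun S : Finset (Fin m) =>
    ∀ x ∈ S, ∀ y ∈ S, x.val % q = y.val % q → x = y).card

/-- `G` is a copy of `𝒢(n,l,s,r)`. -/
def IsExtremal {n : ℕ} (r l s : ℕ) (G : Finset (Finset (Fin n))) : Prop :=
  ∃ (V₀ : Finset (Fin n)) (c : Fin n → Fin (l - 1)), V₀.card = s ∧
    (∀ a, (V₀ᶜ.filter fun x => c x = a).card = (n - s) / (l - 1) ∨
      (V₀ᶜ.filter fun x => c x = a).card = (n - s + (l - 2)) / (l - 1)) ∧
    ∀ e, e ∈ G ↔ e.card = r ∧ (e ∩ V₀).card = 1 ∧ Set.InjOn c ((e \ V₀ : Finset (Fin n)) : Set (Fin n))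

/-- The statement Q1 for all `l ≥ r ≥ 3` and `s ≥ C(l,2)`. -/
def Question : Prop :=
  ∀ r l s : ℕ, 3 ≤ r → r ≤ l → l.choose 2 ≤ s → ∃ n₀ : ℕ, ∀ n : ℕ, n₀ ≤ n →
    (∀ G : Finset (Finset (Fin n)), (∀ e ∈ G, e.card = r) → ¬ HasExpClique l G → MatchingLE s G →
      G.card ≤ s * genTuran (r - 1) (n - s) (l - 1) ∧
      (G.card = s * genTuran (r - 1) (n - s) (l - 1) → IsExtremal r l s G))

/-- all `r`-sets with exactly one vertex in `V₀` -/
def oneVertex {n : ℕ} (r : ℕ) (V₀ : Finset (Fin n)) : Finset (Finset (Fin n)) :=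
  univ.filter fun e => e.card = r ∧ (e ∩ V₀).card = 1

theorem mem_oneVertex {n r : ℕ} {V₀ e : Finset (Fin n)} :
    e ∈ oneVertex r V₀ ↔ e.card = r ∧ (e ∩ V₀).card = 1 := by
  simp [oneVertex]

theorem free {n r l : ℕ} (hl : 1 ≤ l) {V₀ : Finset (Fin n)} (hV : V₀.card ≤ l.choose 2) :
    ¬ HasExpClique l (oneVertex r V₀) := by
  rintro ⟨v, W, hv, hW, hd⟩
  have : Nonempty (Fin n) := ⟨v 0⟩
  have hx : ∀ p : Finset (Fin (l + 1)), p.card = 2 → ∃ x, x ∈ p.image v ∪ W p ∧ x ∈ V₀ := by
    intro p hp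
    have h1 := (mem_oneVertex.1 (hW p hp).2).2
    obtain ⟨x, hx⟩ := Finset.card_pos.1 (by rw [h1]; norm_num : 0 < ((p.image v ∪ W p) ∩ V₀).card)
    rw [Finset.mem_inter] at hx
    exact ⟨x, hx⟩
  choose! x hx1 hx2 using hx
  have key : ∀ P : Finset (Finset (Fin (l + 1))), (∀ p ∈ P, p.card = 2) →
      (∀ p ∈ P, x p ∈ W p) → Set.InjOn x (P : Set (Finset (Fin (l + 1)))) := by
    intro P hP hxW p hp q hq hpq
    by_contra hne
    have h1 := hxW p hp
    have h2 := hxW q hq
    rw [hpq] at h1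
    exact (Finset.disjoint_left.1 (hd p q (hP p hp) (hP q hq) hne)) h1 h2
  by_cases hcore : ∃ k, v k ∈ V₀
  · obtain ⟨k, hk⟩ := hcore
    have hP : ∀ p ∈ (univ.erase k).powersetCard 2, x p ∈ W p := by
      intro p hp
      rw [Finset.mem_powersetCard] at hp
      have h1 := hx1 p hp.2
      rw [Finset.mem_union] at h1
      rcases h1 with h1 | h1
      · exfalso
        obtain ⟨i, hi, hix⟩ := Finset.mem_image.1 h1
        have hik : i ≠ k := fun h => by
          have := hp.1 hi
          rw [h] at this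
          exact (Finset.notMem_erase k univ) this
        have hq : ({i, k} : Finset (Fin (l + 1))).card = 2 := Finset.card_pair hik
        have h2 := (mem_oneVertex.1 (hW _ hq).2).2
        obtain ⟨y, hy⟩ := Finset.card_eq_one.1 h2
        have h3 : v i ∈ ((({i, k} : Finset (Fin (l + 1))).image v ∪ W {i, k}) ∩ V₀) := by
          rw [Finset.mem_inter, Finset.mem_union]
          refine ⟨Or.inl (Finset.mem_image_of_mem v (by simp)), ?_⟩
          rw [hix]
          exact hx2 p hp.2
        have h4 : v k ∈ ((({i, k} : Finset (Fin (l + 1))).image v ∪ W {i, k}) ∩ V₀) := by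
          rw [Finset.mem_inter, Finset.mem_union]
          exact ⟨Or.inl (Finset.mem_image_of_mem v (by simp)), hk⟩
        rw [hy, Finset.mem_singleton] at h3 h4
        exact hik (hv (h3.trans h4.symm))
      · exact h1
    have hinj := key _ (fun p hp => (Finset.mem_powersetCard.1 hp).2) hP
    have hsub : insert (v k) (((univ.erase k).powersetCard 2).image x) ⊆ V₀ := by
      intro y hy
      rw [Finset.mem_insert, Finset.mem_image] at hy
      rcases hy with rfl | ⟨p, hp, rfl⟩
      · exact hk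
      · exact hx2 p (Finset.mem_powersetCard.1 hp).2
    have hcard := Finset.card_le_card hsub
    rw [Finset.card_insert_of_notMem, Finset.card_image_of_injOn hinj, Finset.card_powersetCard,
      Finset.card_erase_of_mem (Finset.mem_univ k), Finset.card_univ, Fintype.card_fin] at hcard
    · simp only [Nat.add_sub_cancel] at hcard
      omega
    · intro hm
      obtain ⟨p, hp, hpx⟩ := Finset.mem_image.1 hm
      have h1 := hP p hp
      rw [hpx] at h1
      exact (hW p (Finset.mem_powersetCard.1 hp).2).1 k h1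
  · push Not at hcore
    have hP : ∀ p ∈ (univ : Finset (Fin (l + 1))).powersetCard 2, x p ∈ W p := by
      intro p hp
      rw [Finset.mem_powersetCard] at hp
      have h1 := hx1 p hp.2
      rw [Finset.mem_union] at h1
      rcases h1 with h1 | h1
      · exfalso
        obtain ⟨i, hi, hix⟩ := Finset.mem_image.1 h1
        apply hcore i
        rw [hix]
        exact hx2 p hp.2
      · exact h1
    have hinj := key _ (fun p hp => (Finset.mem_powersetCard.1 hp).2) hP
    have hsub : ((univ : Finset (Fin (l + 1))).powersetCard 2).image x ⊆ V₀ := by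
      intro y hy
      rw [Finset.mem_image] at hy
      obtain ⟨p, hp, rfl⟩ := hy
      exact hx2 p (Finset.mem_powersetCard.1 hp).2
    have hcard := Finset.card_le_card hsub
    rw [Finset.card_image_of_injOn hinj, Finset.card_powersetCard, Finset.card_univ,
      Fintype.card_fin, Nat.choose_succ_succ' l 1, Nat.choose_one_right] at hcard
    have h2 : l.choose (1 + 1) = l.choose 2 := rfl
    omega

theorem matching {n r : ℕ} (V₀ : Finset (Fin n)) : MatchingLE V₀.card (oneVertex r V₀) := by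
  intro M hM hd
  rcases isEmpty_or_nonempty (Fin n) with hne | hne
  · have : M = ∅ := by
      refine Finset.eq_empty_of_forall_notMem fun e he => ?_
      have h1 := (mem_oneVertex.1 (hM he)).2
      have h2 : e ∩ V₀ = ∅ := Finset.eq_empty_of_isEmpty _
      rw [h2, Finset.card_empty] at h1
      omega
    rw [this, Finset.card_empty]
    exact Nat.zero_le _
  have hx : ∀ e ∈ M, ∃ x, x ∈ e ∧ x ∈ V₀ := by
    intro e he
    have h1 := (mem_oneVertex.1 (hM he)).2
    obtain ⟨x, hx⟩ := Finset.card_pos.1 (by rw [h1]; norm_num : 0 < (e ∩ V₀).card)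
    rw [Finset.mem_inter] at hx
    exact ⟨x, hx⟩
  choose! x hx1 hx2 using hx
  refine Finset.card_le_card_of_injOn x (fun e he => hx2 e he) ?_
  intro e he f hf hef
  by_contra hne
  have h1 := hx1 e he
  rw [hef] at h1
  exact (Finset.disjoint_left.1 (hd e he f hf hne)) h1 (hx1 f hf)

theorem card_oneVertex {n k : ℕ} (V₀ : Finset (Fin n)) :
    V₀.card * (n - V₀.card).choose k ≤ (oneVertex (k + 1) V₀).card := by
  have h1 : (V₀ ×ˢ (V₀ᶜ.powersetCard k)).card = V₀.card * (n - V₀.card).choose k := by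
    rw [Finset.card_product, Finset.card_powersetCard, Finset.card_compl, Fintype.card_fin]
  rw [← h1]
  refine Finset.card_le_card_of_injOn (fun q => insert q.1 q.2) ?_ ?_
  · rintro ⟨x, S⟩ hq
    simp only [Finset.coe_product, Set.mem_prod, Finset.mem_coe, Finset.mem_powersetCard] at hq
    obtain ⟨hx, hS, hc⟩ := hq
    have hxS : x ∉ S := fun h => by
      have := hS h
      rw [Finset.mem_compl] at this
      exact this hx
    simp only [Finset.mem_coe]
    rw [mem_oneVertex, Finset.card_insert_of_notMem hxS, hc]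
    refine ⟨rfl, ?_⟩
    have : insert x S ∩ V₀ = {x} := by
      ext y
      simp only [Finset.mem_inter, Finset.mem_insert, Finset.mem_singleton]
      constructor
      · rintro ⟨rfl | hy, hy2⟩
        · rfl
        · exact absurd hy2 (Finset.mem_compl.1 (hS hy))
      · rintro rfl
        exact ⟨Or.inl rfl, hx⟩
    rw [this, Finset.card_singleton]
  · rintro ⟨x, S⟩ hq ⟨y, T⟩ hq' h
    simp only [Finset.coe_product, Set.mem_prod, Finset.mem_coe, Finset.mem_powersetCard] at hq hq'
    obtain ⟨hx, hS, -⟩ := hq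
    obtain ⟨hy, hT, -⟩ := hq'
    simp only at h
    have hxT : x ∉ T := fun h => (Finset.mem_compl.1 (hT h)) hx
    have hyS : y ∉ S := fun h => (Finset.mem_compl.1 (hS h)) hy
    have hxS : x ∉ S := fun h => (Finset.mem_compl.1 (hS h)) hx
    have hyT : y ∉ T := fun h => (Finset.mem_compl.1 (hT h)) hy
    have hxy : x = y := by
      have : x ∈ insert y T := h ▸ Finset.mem_insert_self x S
      rw [Finset.mem_insert] at this
      exact this.resolve_right hxT
    subst hxy
    have : S = T := by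
      rw [← Finset.erase_insert hxS, ← Finset.erase_insert hyT, h]
    rw [this]

/-- upper bound for the generalized Turán number -/
theorem genTuran_le (k m q : ℕ) (hq : 1 ≤ q) :
    k.factorial * genTuran k m q ≤ q.descFactorial k * (m / q + 1) ^ k := by
  classical
  set N := (((univ : Finset (Fin m)).powersetCard k).filter fun S : Finset (Fin m) =>
    ∀ x ∈ S, ∀ y ∈ S, x.val % q = y.val % q → x = y) with hN
  have hNm : ∀ S ∈ N, S.card = k ∧ ∀ x ∈ S, ∀ y ∈ S, x.val % q = y.val % q → x = y := by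
    intro S hS
    rw [hN, Finset.mem_filter, Finset.mem_powersetCard] at hS
    exact ⟨hS.1.2, hS.2⟩
  -- the map to pairs (residues, quotients)
  let F : (N × Equiv.Perm (Fin k)) → ((Fin k ↪ Fin q) × (Fin k → Fin (m / q + 1))) := fun z =>
    (⟨fun i => ⟨(z.1.1.orderEmbOfFin (hNm z.1.1 z.1.2).1 (z.2 i)).val % q, Nat.mod_lt _ hq⟩, by
      intro i j hij
      simp only [Fin.mk.injEq] at hij
      have h1 := (hNm z.1.1 z.1.2).2 _ (z.1.1.orderEmbOfFin_mem (hNm z.1.1 z.1.2).1 (z.2 i))
        _ (z.1.1.orderEmbOfFin_mem (hNm z.1.1 z.1.2).1 (z.2 j)) hij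
      exact z.2.injective ((z.1.1.orderEmbOfFin (hNm z.1.1 z.1.2).1).injective h1)⟩,
     fun i => ⟨(z.1.1.orderEmbOfFin (hNm z.1.1 z.1.2).1 (z.2 i)).val / q, by
      have := (z.1.1.orderEmbOfFin (hNm z.1.1 z.1.2).1 (z.2 i)).isLt
      exact Nat.lt_succ_of_le (Nat.div_le_div_right this.le)⟩)
  have hF : Function.Injective F := by
    rintro ⟨⟨S, hS⟩, σ⟩ ⟨⟨T, hT⟩, τ⟩ h
    have h1 : ∀ i, S.orderEmbOfFin (hNm S hS).1 (σ i) = T.orderEmbOfFin (hNm T hT).1 (τ i) := by
      intro i
      have ha := congrArg (fun z => (z.1 i).val) h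
      have hb := congrArg (fun z => (z.2 i).val) h
      simp only [F, Function.Embedding.coeFn_mk] at ha hb
      apply Fin.ext
      rw [← Nat.div_add_mod (S.orderEmbOfFin (hNm S hS).1 (σ i)).val q, ha, hb,
        Nat.div_add_mod]
    have hST : S = T := by
      have e1 : S ⊆ T := by
        intro y hy
        have : y ∈ Set.range (S.orderEmbOfFin (hNm S hS).1) := by
          rw [Finset.range_orderEmbOfFin]; exact hy
        obtain ⟨a, rfl⟩ := this
        rw [← σ.apply_symm_apply a, h1]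
        exact T.orderEmbOfFin_mem _ _
      exact Finset.eq_of_subset_of_card_le e1 (by rw [(hNm S hS).1, (hNm T hT).1])
    subst hST
    have hst : σ = τ := by
      ext i
      have := (S.orderEmbOfFin (hNm S hS).1).injective (h1 i)
      rw [this]
    rw [hst]
  have hcard := Fintype.card_le_of_injective F hF
  rw [Fintype.card_prod, Fintype.card_prod, Fintype.card_coe, Fintype.card_perm, Fintype.card_fin,
    Fintype.card_embedding_eq, Fintype.card_fin, Fintype.card_fin, Fintype.card_fun,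
    Fintype.card_fin, Fintype.card_fin] at hcard
  have hg : genTuran k m q = N.card := rfl
  rw [hg, mul_comm]
  exact hcard

/-- a comparison of two polynomials -/
theorem eventually_lt {A B k a b : ℕ} (hAB : A < B) :
    ∃ n₀ : ℕ, ∀ n : ℕ, n₀ ≤ n → A * (n + a) ^ k < B * (n - b) ^ k := by
  have h1 : Filter.Tendsto (fun n : ℕ => (A : ℝ) * (1 + (a : ℝ) / n) ^ k) Filter.atTop
      (nhds ((A : ℝ) * (1 + 0) ^ k)) := by
    refine Filter.Tendsto.const_mul _ (Filter.Tendsto.pow (Filter.Tendsto.const_add _ ?_) _)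
    exact tendsto_const_div_atTop_nhds_zero_nat (a : ℝ)
  have h2 : Filter.Tendsto (fun n : ℕ => (B : ℝ) * (1 - (b : ℝ) / n) ^ k) Filter.atTop
      (nhds ((B : ℝ) * (1 - 0) ^ k)) := by
    refine Filter.Tendsto.const_mul _ (Filter.Tendsto.pow (Filter.Tendsto.const_sub _ ?_) _)
    exact tendsto_const_div_atTop_nhds_zero_nat (b : ℝ)
  have h3 : (A : ℝ) * (1 + 0) ^ k < (B : ℝ) * (1 - 0) ^ k := by
    rw [add_zero, sub_zero, one_pow, mul_one, mul_one]
    exact_mod_cast hAB
  have h4 := h1.eventually_lt h2 h3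
  obtain ⟨n₀, hn₀⟩ := Filter.eventually_atTop.1 h4
  refine ⟨max n₀ (b + 1), fun n hn => ?_⟩
  have hn1 : n₀ ≤ n := le_trans (le_max_left _ _) hn
  have hn2 : b + 1 ≤ n := le_trans (le_max_right _ _) hn
  have hn3 : (0 : ℝ) < n := by exact_mod_cast (by omega : 0 < n)
  have h5 := hn₀ n hn1
  have h6 : (A : ℝ) * ((n : ℝ) + a) ^ k < (B : ℝ) * ((n : ℝ) - b) ^ k := by
    have e1 : ((n : ℝ) + a) = n * (1 + (a : ℝ) / n) := by field_simp
    have e2 : ((n : ℝ) - b) = n * (1 - (b : ℝ) / n) := by field_simp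
    rw [e1, e2, mul_pow, mul_pow]
    have : (0 : ℝ) < (n : ℝ) ^ k := by positivity
    nlinarith [mul_lt_mul_of_pos_left h5 this]
  have h7 : ((n - b : ℕ) : ℝ) = (n : ℝ) - b := by
    rw [Nat.cast_sub (by omega)]
  rw [← h7] at h6
  exact_mod_cast h6

/-- The main statement: a hypergraph with more edges. -/
theorem main {r l s : ℕ} (hr : 3 ≤ r) (hl : r ≤ l) (hs : l.choose 2 ≤ s)
    (hlt : s * (l - 1).descFactorial (r - 1) < l.choose 2 * (l - 1) ^ (r - 1)) :
    ∃ n₀ : ℕ, ∀ n : ℕ, n₀ ≤ n → ∃ G : Finset (Finset (Fin n)),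
      (∀ e ∈ G, e.card = r) ∧ ¬ HasExpClique l G ∧ MatchingLE s G ∧
      s * genTuran (r - 1) (n - s) (l - 1) < G.card := by
  obtain ⟨k, rfl⟩ : ∃ k, r = k + 1 := ⟨r - 1, by omega⟩
  obtain ⟨q, rfl⟩ : ∃ q, l = q + 1 := ⟨l - 1, by omega⟩
  simp only [Nat.add_sub_cancel] at hlt ⊢
  set c := (q + 1).choose 2 with hc
  obtain ⟨n₀, hn₀⟩ := eventually_lt (k := k) (a := q) (b := c + k) hlt
  refine ⟨max n₀ (c + k), fun n hn => ?_⟩
  have hn1 : n₀ ≤ n := le_trans (le_max_left _ _) hn
  have hn2 : c + k ≤ n := le_trans (le_max_right _ _) hn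
  have hV : ∃ V₀ : Finset (Fin n), V₀.card = c := by
    obtain ⟨V₀, -, hV₀⟩ := Finset.exists_subset_card_eq (s := (univ : Finset (Fin n))) (n := c)
      (by rw [Finset.card_univ, Fintype.card_fin]; omega)
    exact ⟨V₀, hV₀⟩
  obtain ⟨V₀, hV₀⟩ := hV
  refine ⟨oneVertex (k + 1) V₀, fun e he => (mem_oneVertex.1 he).1, free (by omega) hV₀.le,
    fun M hM hd => le_trans (le_of_le_of_eq (matching V₀ M hM hd) hV₀) hs, ?_⟩
  refine lt_of_lt_of_le ?_ (card_oneVertex V₀)
  rw [hV₀]
  have hq : 1 ≤ q := by omega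
  have h1 := genTuran_le k (n - s) q hq
  have h2 : q * ((n - s) / q + 1) ≤ n + q := by
    have := Nat.mul_div_le (n - s) q
    rw [mul_add, mul_one]
    omega
  have h3 : (n - (c + k)) ^ k ≤ (n - c).descFactorial k := by
    refine le_trans (Nat.pow_le_pow_left ?_ k) (Nat.pow_sub_le_descFactorial (n - c) k)
    omega
  have h4 : (n - c).descFactorial k = k.factorial * (n - c).choose k :=
    Nat.descFactorial_eq_factorial_mul_choose _ _
  have h5 := hn₀ n hn1
  have hpos : 0 < k.factorial * q ^ k := by positivity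
  refine Nat.lt_of_mul_lt_mul_left (a := k.factorial * q ^ k) ?_
  calc k.factorial * q ^ k * (s * genTuran k (n - s) q)
      = s * q ^ k * (k.factorial * genTuran k (n - s) q) := by ring
    _ ≤ s * q ^ k * (q.descFactorial k * ((n - s) / q + 1) ^ k) := Nat.mul_le_mul_left _ h1
    _ = s * q.descFactorial k * (q * ((n - s) / q + 1)) ^ k := by rw [mul_pow]; ring
    _ ≤ s * q.descFactorial k * (n + q) ^ k :=
        Nat.mul_le_mul_left _ (Nat.pow_le_pow_left h2 k)
    _ < c * q ^ k * (n - (c + k)) ^ k := h5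
    _ ≤ c * q ^ k * (n - c).descFactorial k := Nat.mul_le_mul_left _ h3
    _ = k.factorial * q ^ k * (c * (n - c).choose k) := by rw [h4]; ring

/-- The statement Q1 is false: it fails for all `l ≥ r ≥ 3` when `s = C(l,2)`, and more generally
whenever `C(l,2) ≤ s` and `s (l-1)(l-2)⋯(l-r+1) < C(l,2) (l-1)^(r-1)`, for all large `n`. -/
theorem result :
    ¬ Question ∧
    ∀ r l s : ℕ, 3 ≤ r → r ≤ l → l.choose 2 ≤ s →
      (s = l.choose 2 ∨
        s * (l - 1).descFactorial (r - 1) < l.choose 2 * (l - 1) ^ (r - 1)) →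
      ∃ n₀ : ℕ, ∀ n : ℕ, n₀ ≤ n → ∃ G : Finset (Finset (Fin n)),
        (∀ e ∈ G, e.card = r) ∧ ¬ HasExpClique l G ∧ MatchingLE s G ∧
        s * genTuran (r - 1) (n - s) (l - 1) < G.card := by
  have key : ∀ r l s : ℕ, 3 ≤ r → r ≤ l → l.choose 2 ≤ s →
      (s = l.choose 2 ∨
        s * (l - 1).descFactorial (r - 1) < l.choose 2 * (l - 1) ^ (r - 1)) →
      ∃ n₀ : ℕ, ∀ n : ℕ, n₀ ≤ n → ∃ G : Finset (Finset (Fin n)),
        (∀ e ∈ G, e.card = r) ∧ ¬ HasExpClique l G ∧ MatchingLE s G ∧
        s * genTuran (r - 1) (n - s) (l - 1) < G.card := by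
    intro r l s hr hl hs h
    refine main hr hl hs ?_
    rcases h with rfl | h
    · have h1 : (l - 1).descFactorial (r - 1) < (l - 1) ^ (r - 1) :=
        Nat.descFactorial_lt_pow (by omega) (by omega)
      exact Nat.mul_lt_mul_of_pos_left h1 (Nat.choose_pos (by omega))
    · exact h
  refine ⟨fun hQ => ?_, key⟩
  obtain ⟨n₀, h₀⟩ := hQ 3 3 3 le_rfl le_rfl (by decide)
  obtain ⟨n₁, h₁⟩ := key 3 3 3 le_rfl le_rfl (by decide) (Or.inl (by decide))
  obtain ⟨G, hG, hE, hM, hlt⟩ := h₁ (max n₀ n₁) (le_max_right _ _)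
  have h2 := (h₀ _ (le_max_left _ _) G hG hE hM).1
  exact absurd (lt_of_lt_of_le hlt h2) (lt_irrefl _)

end Pool.Agent.Results.MP_f4e9fb_co.OneVertexStars
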